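import Pool.Agent.helper89.PU.Spec1

set_option autoImplicit false

namespace Pool.Agent.PV

open Matrix Polynomial Pool.Agent.GO Pool.Agent.AR Pool.Agent.RG Pool.Agent.HZ Pool.Agent.DS
  Pool.Agent.AX Pool.Agent.UM Pool.Agent.PU MeasureTheory NumberField

theorem EXT : EXT_stmt := by
  intro p _ F _ _ _
  have h1 : Algebra.IsAlgebraic ℚ_[p] F := Algebra.IsAlgebraic.of_finite ℚ_[p] F
  have h2 : Algebra.IsAlgebraic ℚ_[p] (AlgebraicClosure F) :=
    Algebra.IsAlgebraic.trans ℚ_[p] F (AlgebraicClosure F)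
  refine ⟨AlgebraicClosure F, spectralNorm.normedField ℚ_[p] (AlgebraicClosure F),
    spectralNorm.normedAlgebra ℚ_[p] (AlgebraicClosure F), (inferInstance : IsAlgClosed (AlgebraicClosure F)),
    algebraMap F (AlgebraicClosure F), ?_, ?_⟩
  · intro x
    show spectralNorm ℚ_[p] (AlgebraicClosure F) (algebraMap F (AlgebraicClosure F) x) = ‖x‖
    rw [NormedAlgebra.norm_eq_spectralNorm ℚ_[p] x]
    exact (spectralNorm.eq_of_tower (K := ℚ_[p]) (E := F) (L := AlgebraicClosure F) x).symm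
  · intro x
    exact (IsScalarTower.algebraMap_apply ℚ_[p] F (AlgebraicClosure F) x).symm

end Pool.Agent.PV
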